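import Pool.Agent.W763.PB.Stm

set_option autoImplicit false
set_option linter.unusedSectionVars false
open MeasureTheory Filter Topology
open scoped InnerProductSpace BoundedContinuousFunction

namespace Pool.Agent.W922.PB

open Pool.Agent.W763.PB

noncomputable section

theorem adj_iso {H E : Type} [NormedAddCommGroup H] [InnerProductSpace ℂ H] [CompleteSpace H]
    [NormedAddCommGroup E] [InnerProductSpace ℂ E] [CompleteSpace E] (i : H →ₗᵢ[ℂ] E) (x : H) :
    ContinuousLinearMap.adjoint i.toContinuousLinearMap (i x) = x := by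
  apply ext_inner_right ℂ
  intro y
  rw [ContinuousLinearMap.adjoint_inner_left]
  show ⟪i x, i y⟫_ℂ = _
  exact i.inner_map_map x y

theorem adj_norm {H E : Type} [NormedAddCommGroup H] [InnerProductSpace ℂ H] [CompleteSpace H]
    [NormedAddCommGroup E] [InnerProductSpace ℂ E] [CompleteSpace E] (i : H →ₗᵢ[ℂ] E) (v : E) :
    ‖ContinuousLinearMap.adjoint i.toContinuousLinearMap v‖ ≤ ‖v‖ := by
  set a := ContinuousLinearMap.adjoint i.toContinuousLinearMap v with ha
  have h1 : ⟪a, a⟫_ℂ = ⟪v, i a⟫_ℂ := by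
    conv_lhs => rw [ha]
    rw [ContinuousLinearMap.adjoint_inner_left]
    rfl
  have h2 : ‖a‖ ^ 2 ≤ ‖v‖ * ‖a‖ := by
    have h3 : ‖(⟪a, a⟫_ℂ)‖ = ‖a‖ ^ 2 := by
      rw [inner_self_eq_norm_sq_to_K]
      simp
    rw [← h3, h1]
    refine (norm_inner_le_norm _ _).trans ?_
    rw [i.norm_map]
  by_cases h0 : ‖a‖ = 0
  · rw [h0]; exact norm_nonneg _
  · have hpos : 0 < ‖a‖ := lt_of_le_of_ne (norm_nonneg _) (Ne.symm h0)
    nlinarith

theorem l3 : S_L3 := by
  intro H _ _ _ J E _ _ _ i hiJ hdense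
  have h1 : ∀ l x, ContinuousLinearMap.adjoint (i l).toContinuousLinearMap (i l x) = x :=
    fun l x => adj_iso (i l) x
  have hr : ∀ l (x : H l) m, l ≤ m → ∃ z : H m, i m z = i l x := by
    intro l x m hm
    induction m, hm using Nat.le_induction with
    | base => exact ⟨x, rfl⟩
    | succ m hm ih =>
      obtain ⟨z, hz⟩ := ih
      exact ⟨J m z, by rw [hiJ, hz]⟩
  have h2 : ∀ l m x, l ≤ m →
      i m (ContinuousLinearMap.adjoint (i m).toContinuousLinearMap (i l x)) = i l x := by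
    intro l m x hm
    obtain ⟨z, hz⟩ := hr l x m hm
    rw [← hz, h1]
  have h3 : ∀ l m x, l ≤ m → ContinuousLinearMap.adjoint (i (m + 1)).toContinuousLinearMap (i l x)
      = J m (ContinuousLinearMap.adjoint (i m).toContinuousLinearMap (i l x)) := by
    intro l m x hm
    obtain ⟨z, hz⟩ := hr l x m hm
    have h4 : i l x = i (m + 1) (J m z) := by rw [hiJ, hz]
    rw [h4, h1, ← h4, ← hz, h1]
  have h5 : ∀ l v, ‖ContinuousLinearMap.adjoint (i l).toContinuousLinearMap v‖ ≤ ‖v‖ :=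
    fun l v => adj_norm (i l) v
  refine ⟨h1, h2, h3, ?_, h5⟩
  intro v
  rw [Metric.tendsto_atTop]
  intro ε hε
  obtain ⟨w, hw, hvw⟩ := Metric.mem_closure_iff.1 (hdense v) (ε / 2) (by positivity)
  rw [Set.mem_iUnion] at hw
  obtain ⟨l, x, rfl⟩ := hw
  refine ⟨l, fun m hm => ?_⟩
  have e1 : i m (ContinuousLinearMap.adjoint (i m).toContinuousLinearMap v) - v =
      i m (ContinuousLinearMap.adjoint (i m).toContinuousLinearMap (v - i l x)) - (v - i l x) := by
    rw [map_sub, map_sub, h2 l m x hm]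
    abel
  rw [dist_eq_norm, e1]
  have e2 : ‖i m (ContinuousLinearMap.adjoint (i m).toContinuousLinearMap (v - i l x))‖ ≤
      ‖v - i l x‖ := by
    rw [(i m).norm_map]
    exact h5 m _
  rw [dist_eq_norm] at hvw
  calc _ ≤ ‖i m (ContinuousLinearMap.adjoint (i m).toContinuousLinearMap (v - i l x))‖ +
        ‖v - i l x‖ := norm_sub_le _ _
    _ ≤ ‖v - i l x‖ + ‖v - i l x‖ := by gcongr
    _ < ε := by linarith

end

end Pool.Agent.W922.PB
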